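import Mathlib
import Pool.Agent.W2helper8.TW.Space

/-!
# A uniruled symplectic manifold whose invariants with a point insertion vanish

Let `M` be a compact hyperbolic four-manifold and `X → M` its twistor space, an `S²`-bundle. With
Reznikov's symplectic form `Ω` and the almost complex structure `J` of Eells and Salamon, `J` is
`Ω`-compatible, the fibres of `X → M` are `J`-holomorphic spheres, and `(X, J)` has a nowhere
vanishing `(3,0)`-form. So `(X, Ω)` is uniruled and its first Chern class is zero. As `X` has
dimension `6` the dimension formula leaves no non-zero genus `0` Gromov-Witten invariant with a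
point insertion (except for the classical triple product, `A = 0`, `k = 3`).
-/

open scoped Manifold ContDiff Topology
open Metric Set Bundle
open Pool.Agent.Helper206.Cover (R3 P1 cross EndoField)
open Pool.Agent.Helper206.Rat (SymplecticForm AlmostComplex IsCompatible IsHolomorphic
  RationalCurve IsUniruled)
open Pool.Agent.W2helper8.TW

noncomputable section

namespace Pool.Agent.Results.MP_9dc49b_gt.UniruledInvariantsVanish

section Statement

variable
  {E' : Type*} [NormedAddCommGroup E'] [NormedSpace ℝ E'] {H' : Type*} [TopologicalSpace H']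
  {I' : ModelWithCorners ℝ E' H'} {S : Type*} [TopologicalSpace S] [ChartedSpace H' S]

/-- `j` is the rotation by the angle `π / 2` of the tangent planes of the sphere `ι : S → R3`
about the outward normal: `dι (j w) = ι z × dι w` for `w` tangent to `S` at `z`. For the unit
sphere, with `ι` the inclusion in `R3`, this is the complex structure of the Riemann sphere. -/
def IsRotation (ι : S → R3) (j : EndoField I' S) : Prop :=
  ∀ (z : S) (w : TangentSpace I' z), mvfderiv I' ι z (j z w) = cross (ι z) (mvfderiv I' ι z w)

/-- The singular homology `H_n(X; R)`. -/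
abbrev Hlg (R : Type) [CommRing R] (n : ℕ) (X : Type) [TopologicalSpace X] : ModuleCat.{0} R :=
  ((AlgebraicTopology.singularHomologyFunctor (ModuleCat.{0} R) n).obj
    (ModuleCat.of R R)).obj (TopCat.of X)

/-- The cohomology `H^n(X; ℚ)`; it is the dual of `H_n(X; ℚ)`. -/
abbrev Coh (n : ℕ) (X : Type) [TopologicalSpace X] : Type := Module.Dual ℚ (Hlg ℚ n X)

/-- The cohomology `H^*(X; ℚ)`, the direct sum of the `H^n(X; ℚ)`. -/
abbrev CohT (X : Type) [TopologicalSpace X] : Type := DirectSum ℕ fun n => Coh n X

/-- The class `a` of degree `d` as an element of `H^*(X; ℚ)`. -/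
def homog {X : Type} [TopologicalSpace X] (d : ℕ) (a : Coh d X) : CohT X :=
  DirectSum.of (fun n => Coh n X) d a

/-- Families of `ℚ`-multilinear functions of `k` classes in `H^*(X; ℚ)`, one for each
`A ∈ H₂(X; ℤ)` and each `k`. -/
abbrev Invariants (X : Type) [TopologicalSpace X] : Type :=
  Hlg ℤ 2 X → (k : ℕ) → MultilinearMap ℚ (fun _ : Fin k => CohT X) ℚ

section GW

variable {E : Type} [NormedAddCommGroup E] [NormedSpace ℝ E] {H : Type} [TopologicalSpace H]
  {I : ModelWithCorners ℝ E H} {X : Type} [TopologicalSpace X] [ChartedSpace H X]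

/-- `J` is tamed by `Ω`: `Ω (v, J v) > 0` for `v ≠ 0`. -/
def IsTame (Ω : SymplecticForm I X) (J : AlmostComplex I X) : Prop :=
  ∀ x v, v ≠ 0 → 0 < Ω.form x v (J.J x v)

/-- The following properties of the first Chern class `c₁ : H₂(X; ℤ) → ℤ` of the tangent bundle of
the compact symplectic manifold `(X, Ω)` and of its genus `0` Gromov-Witten invariants
`gw A k (α₁, …, α_k) = GW_{0,k,A}(α₁, …, α_k)`, for `A ∈ H₂(X; ℤ)` and `α_i ∈ H^*(X; ℚ)`; the
latter are `ℚ`-multilinear in `α₁, …, α_k`.

* `chern`: when `X` has dimension `6` and for some `Ω`-tame `J` there is a nowhere vanishing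
  `(3,0)`-form, that is when the canonical bundle of `(X, J)` is trivial, then `c₁ = 0`.
* `grading`: the invariant of homogeneous classes is zero unless the sum of their degrees is the
  virtual dimension `dim X - 6 + 2 c₁(A) + 2 k` of the moduli space of stable maps.
* `forget`: the invariant is zero when one of the insertions has degree `0` or `1` (the moduli
  space and its virtual class are pulled back under the map which forgets the marked point, which
  has two dimensional fibres), except when `A = 0` and `k = 3`. (When `A = 0` and `k < 3` there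
  are no stable maps.) -/
structure IsGWSystem (Ω : SymplecticForm I X) (c₁ : Hlg ℤ 2 X → ℤ) (gw : Invariants X) :
    Prop where
  chern : Module.finrank ℝ E = 6 →
    (∃ J : AlmostComplex I X, IsTame Ω J ∧ Nonempty (ComplexVolume J)) → ∀ A, c₁ A = 0
  grading : ∀ (A : Hlg ℤ 2 X) (k : ℕ) (d : Fin k → ℕ) (a : ∀ i, Coh (d i) X),
    gw A k (fun i => homog (d i) (a i)) ≠ 0 →
      ∑ i, (d i : ℤ) = (Module.finrank ℝ E : ℤ) - 6 + 2 * c₁ A + 2 * k
  forget : ∀ (A : Hlg ℤ 2 X) (k : ℕ) (α : Fin k → CohT X) (i : Fin k) (d : ℕ) (a : Coh d X),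
    d < 2 → α i = homog d a → (A ≠ 0 ∨ k ≠ 3) → gw A k α = 0

/-- For all `c₁` and `gw` with the properties of the first Chern class and of the genus `0`
Gromov-Witten invariants of `(X, Ω)` listed above, each invariant for which one of the insertions
has degree `6`, for example is the Poincaré dual of a point when `X` has dimension `6`, is zero;
except for the invariants with `A = 0` and `k = 3`. (The latter are the integrals of
`α₁ ∪ α₂ ∪ α₃` over `X`, and have nothing to do with curves: for `α₁` the dual of a point and
`α₂ = α₃ = 1` the integral is `1`, for every compact symplectic manifold.) -/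
def PointInvariantsVanish (Ω : SymplecticForm I X) : Prop :=
  ∀ (c₁ : Hlg ℤ 2 X → ℤ) (gw : Invariants X), IsGWSystem Ω c₁ gw →
    ∀ (A : Hlg ℤ 2 X) (k : ℕ) (α : Fin k → CohT X) (i : Fin k) (p : Coh 6 X),
      α i = homog 6 p → (A ≠ 0 ∨ k ≠ 3) → gw A k α = 0

/-- Each point of `X` lies on a connected rational `J`-holomorphic curve. -/
def CoversByCurves (j : EndoField I' S) (J : AlmostComplex I X) : Prop :=
  ∀ x : X, ∃ C : RationalCurve j J, x ∈ C.image

end GW

/-- There are a compact connected symplectic manifold `(X, Ω)` without boundary, of dimension `6`,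
and an `Ω`-compatible almost complex structure `J` on `X` with a nowhere vanishing `(3,0)`-form,
such that each point of `X` lies on a connected rational `J`-holomorphic curve (so `(X, Ω)` is
uniruled). And all invariants of `(X, Ω)` with a point insertion vanish, in the sense above. -/
def HasCounterexample (j : EndoField I' S) : Prop :=
    ∃ (E : Type) (_ : NormedAddCommGroup E) (_ : NormedSpace ℝ E) (_ : FiniteDimensional ℝ E)
      (H : Type) (_ : TopologicalSpace H) (I : ModelWithCorners ℝ E H) (_ : I.Boundaryless)
      (X : Type) (_ : TopologicalSpace X) (_ : ChartedSpace H X) (_ : IsManifold I ∞ X)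
      (_ : CompactSpace X) (_ : T2Space X) (_ : SecondCountableTopology X) (_ : ConnectedSpace X)
      (Ω : SymplecticForm I X) (J : AlmostComplex I X),
      Module.finrank ℝ E = 6 ∧
      IsCompatible Ω J ∧ Nonempty (ComplexVolume J) ∧ CoversByCurves j J ∧
      IsUniruled j Ω ∧ PointInvariantsVanish Ω

end Statement

section Proof

variable {E : Type} [NormedAddCommGroup E] [NormedSpace ℝ E] {H : Type} [TopologicalSpace H]
  {I : ModelWithCorners ℝ E H} {X : Type} [TopologicalSpace X] [ChartedSpace H X]

theorem homogeneous_eq_zero {Ω : SymplecticForm I X} {c₁ : Hlg ℤ 2 X → ℤ}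
    {gw : Invariants X}
    (h : IsGWSystem Ω c₁ gw) (hE : Module.finrank ℝ E = 6) (hc : ∀ A, c₁ A = 0)
    (A : Hlg ℤ 2 X) (k : ℕ) (d : Fin k → ℕ) (a : ∀ i, Coh (d i) X) (i : Fin k) (hi : d i = 6)
    (hk : A ≠ 0 ∨ k ≠ 3) : gw A k (fun i => homog (d i) (a i)) = 0 := by
  by_contra hne
  have h1 := h.grading A k d a hne
  rw [hE, hc A] at h1
  have h2 : ∃ l, d l < 2 := by
    by_contra hcon
    push Not at hcon
    have h3 : ((d i : ℤ) - 2) ≤ ∑ l, ((d l : ℤ) - 2) := by
      refine Finset.single_le_sum (f := fun l => (d l : ℤ) - 2) (fun l _ => ?_)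
        (Finset.mem_univ i)
      have := hcon l
      have : (2 : ℤ) ≤ d l := by exact_mod_cast this
      linarith
    rw [Finset.sum_sub_distrib, h1, hi] at h3
    simp at h3
    linarith
  obtain ⟨l, hl⟩ := h2
  exact hne (h.forget A k _ l (d l) (a l) hl rfl hk)

/-- The component of degree `d`. -/
def cmp (a : CohT X) (d : ℕ) : Coh d X := a d

theorem exists_sum (a : CohT X) : ∃ s : Finset ℕ, a = ∑ d ∈ s, homog d (cmp a d) := by
  classical
  exact ⟨_, (DirectSum.sum_support_of a).symm⟩

theorem cmp_homog_ne (p : Coh 6 X) {d : ℕ} (hd : d ≠ 6) : cmp (homog 6 p) d = 0 :=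
  DirectSum.of_eq_of_ne _ _ _ hd

theorem homog_zero (d : ℕ) : homog d (0 : Coh d X) = 0 :=
  map_zero (DirectSum.of (fun n => Coh n X) d)

theorem gw_eq_zero {Ω : SymplecticForm I X} {c₁ : Hlg ℤ 2 X → ℤ} {gw : Invariants X}
    (h : IsGWSystem Ω c₁ gw) (hE : Module.finrank ℝ E = 6) (hc : ∀ A, c₁ A = 0)
    (A : Hlg ℤ 2 X) (k : ℕ) (α : Fin k → CohT X) (i : Fin k) (p : Coh 6 X)
    (hi : α i = homog 6 p) (hk : A ≠ 0 ∨ k ≠ 3) : gw A k α = 0 := by
  classical
  choose s hs using exists_sum (X := X)
  have h1 : α = fun l => ∑ d ∈ s (α l), homog d (cmp (α l) d) := by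
    funext l
    exact hs (α l)
  rw [h1, MultilinearMap.map_sum_finset]
  refine Finset.sum_eq_zero fun r _ => ?_
  by_cases hr : r i = 6
  · exact homogeneous_eq_zero h hE hc A k r (fun l => cmp (α l) (r l)) i hr hk
  · refine (gw A k).map_coord_zero i ?_
    have h2 : cmp (α i) (r i) = 0 := by
      rw [hi]
      exact cmp_homog_ne p hr
    rw [h2]
    exact homog_zero _

end Proof

/-- The answer to the first question is negative. Here `P¹` is the unit sphere `P1` of `R3`, with
the smooth structure of Mathlib and the complex structure `j w = z × w`. -/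
theorem result :
    ∃ j : EndoField (𝓡 2) P1, IsRotation (fun z : P1 => (z : R3)) j ∧ HasCounterexample j := by
  refine ⟨Pool.Agent.Helper206.Cover.jP1, Pool.Agent.Helper206.Cover.dInc_jP1, ET, inferInstance,
    inferInstance, inferInstance, _, inferInstance, IT, inferInstance,
    Xt, inferInstance, inferInstance, inferInstance, inferInstance, inferInstance, inferInstance,
    inferInstance, OmX, JX, finrank_ET, compatible_X, ⟨VX⟩, ?_, uniruled_X, ?_⟩
  · intro q
    obtain ⟨⟨x, z⟩, rfl⟩ := proj_surj Gm q
    exact ⟨rcrv x, Set.mem_iUnion.2 ⟨(0 : Fin 1), z, rfl⟩⟩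
  · intro c₁ gw h A k α i p hi hk
    have hc := h.chern finrank_ET ⟨JX, compatible_X.2, ⟨VX⟩⟩
    exact gw_eq_zero h finrank_ET hc A k α i p hi hk

end Pool.Agent.Results.MP_9dc49b_gt.UniruledInvariantsVanish
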